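import Mathlib

set_option autoImplicit false

namespace Pool.Agent.Results.MP_c86f36_co.SparseHalves

open Finset

/-- The number of edges of `G` with both endpoints in `S`. -/
noncomputable def spanned {n : ℕ} (G : SimpleGraph (Fin n)) (S : Finset (Fin n)) : ℕ :=
  {e ∈ G.edgeSet | ∀ v ∈ e, v ∈ S}.ncard

/-- `b_t(n)`: the smallest number of edges spanned by a set of `⌊n/2⌋` vertices of the
`(t-1)`-partite Turán graph on `n` vertices. -/
noncomputable def b (t n : ℕ) : ℕ :=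
  sInf {m | ∃ S : Finset (Fin n), S.card = n / 2 ∧ spanned (SimpleGraph.turanGraph n (t - 1)) S = m}

theorem two_mul_spanned {n : ℕ} (G : SimpleGraph (Fin n)) [DecidableRel G.Adj]
    (S : Finset (Fin n)) : 2 * spanned G S = #{p ∈ S ×ˢ S | G.Adj p.1 p.2} := by
  classical
  let G' : SimpleGraph (Fin n) :=
    { Adj := fun u v => G.Adj u v ∧ u ∈ S ∧ v ∈ S
      symm := ⟨fun u v h => ⟨h.1.symm, h.2.2, h.2.1⟩⟩
      loopless := ⟨fun u h => G.loopless.irrefl u h.1⟩ }
  have h1 : {e ∈ G.edgeSet | ∀ v ∈ e, v ∈ S} = G'.edgeSet := by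
    ext e
    induction e using Sym2.ind with
    | _ x y => simp [G']
  have h2 : spanned G S = #G'.edgeFinset := by
    unfold spanned
    rw [h1, ← SimpleGraph.coe_edgeFinset, Set.ncard_coe_finset]
  rw [h2, SimpleGraph.two_mul_card_edgeFinset]
  congr 1
  ext ⟨x, y⟩
  simp [G']
  tauto

/-- ordered adjacent pairs in `S` -/
def P {V : Type} (H : V → V → Prop) [DecidableRel H] (S : Finset V) : ℕ :=
  #{p ∈ S ×ˢ S | H p.1 p.2}

/-- adjacency of `a` disjoint five-cycles and `c` disjoint edges -/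
def adj (a c : ℕ) : (Fin a × Fin 5) ⊕ (Fin c × Fin 2) → (Fin a × Fin 5) ⊕ (Fin c × Fin 2) → Prop
  | Sum.inl x, Sum.inl y => x.1 = y.1 ∧ (x.2 + 1 = y.2 ∨ y.2 + 1 = x.2)
  | Sum.inr x, Sum.inr y => x.1 = y.1 ∧ x.2 ≠ y.2
  | Sum.inl _, Sum.inr _ => False
  | Sum.inr _, Sum.inl _ => False

instance (a c : ℕ) : DecidableRel (adj a c) := fun x y => by
  rcases x with x | x <;> rcases y with y | y <;> unfold adj <;> infer_instance

theorem adj_symm (a c : ℕ) (x y) (h : adj a c x y) : adj a c y x := by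
  rcases x with x | x <;> rcases y with y | y
  · exact ⟨h.1.symm, h.2.symm⟩
  · exact h
  · exact h
  · exact ⟨h.1.symm, h.2.symm⟩

theorem adj_irrefl (a c : ℕ) (x) : ¬ adj a c x x := by
  rcases x with x | x
  · rintro ⟨-, h⟩
    revert h
    generalize x.2 = z
    revert z
    decide
  · rintro ⟨-, h⟩
    exact h rfl

/-- independent sets in a five-cycle have at most two vertices -/
theorem five_indep : ∀ A : Finset (Fin 5), (∀ x ∈ A, ∀ y ∈ A, ¬ (x + 1 = y ∨ y + 1 = x)) →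
    A.card ≤ 2 := by decide

theorem two_indep : ∀ A : Finset (Fin 2), (∀ x ∈ A, ∀ y ∈ A, ¬ x ≠ y) → A.card ≤ 1 := by decide

theorem five_pairs : ∀ A : Finset (Fin 5),
    (#{p ∈ A ×ˢ A | p.1 + 1 = p.2 ∨ p.2 + 1 = p.1} = 2 * A.card ∧ (A.card = 0 ∨ A.card = 5)) ∨
      #{p ∈ A ×ˢ A | p.1 + 1 = p.2 ∨ p.2 + 1 = p.1} + 1 ≤ 2 * A.card := by decide

theorem two_pairs : ∀ A : Finset (Fin 2),
    (#{p ∈ A ×ˢ A | p.1 ≠ p.2} = 2 * A.card ∧ A.card = 0) ∨
      #{p ∈ A ×ˢ A | p.1 ≠ p.2} + 1 ≤ 2 * A.card := by decide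

section count
variable {a c : ℕ}

/-- the part of `S` in the `i`-th five-cycle -/
def fa (S : Finset ((Fin a × Fin 5) ⊕ (Fin c × Fin 2))) (i : Fin a) : Finset (Fin 5) :=
  {x | Sum.inl (i, x) ∈ S}

/-- the part of `S` in the `j`-th edge -/
def fb (S : Finset ((Fin a × Fin 5) ⊕ (Fin c × Fin 2))) (j : Fin c) : Finset (Fin 2) :=
  {x | Sum.inr (j, x) ∈ S}

theorem card_split (S : Finset ((Fin a × Fin 5) ⊕ (Fin c × Fin 2))) :
    S.card = ∑ i, (fa S i).card + ∑ j, (fb S j).card := by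
  have h1 : S.card = ∑ x : (Fin a × Fin 5) ⊕ (Fin c × Fin 2), if x ∈ S then 1 else 0 := by
    simp
  rw [h1, Fintype.sum_sum_type, Fintype.sum_prod_type, Fintype.sum_prod_type]
  congr 1
  · refine Finset.sum_congr rfl fun i _ => ?_
    rw [fa, Finset.card_filter]
  · refine Finset.sum_congr rfl fun i _ => ?_
    rw [fb, Finset.card_filter]

theorem pairs_split (S : Finset ((Fin a × Fin 5) ⊕ (Fin c × Fin 2))) :
    #{p ∈ S ×ˢ S | adj a c p.1 p.2} =
      ∑ i, #{p ∈ fa S i ×ˢ fa S i | p.1 + 1 = p.2 ∨ p.2 + 1 = p.1} +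
      ∑ j, #{p ∈ fb S j ×ˢ fb S j | p.1 ≠ p.2} := by
  have h1 : #{p ∈ S ×ˢ S | adj a c p.1 p.2} =
      ∑ x : (Fin a × Fin 5) ⊕ (Fin c × Fin 2), ∑ y : (Fin a × Fin 5) ⊕ (Fin c × Fin 2),
        if (x ∈ S ∧ y ∈ S) ∧ adj a c x y then 1 else 0 := by
    rw [← Finset.sum_product', Finset.univ_product_univ, ← Finset.card_filter]
    congr 1
    ext p
    simp
  have h2 : ∀ i : Fin a, #{p ∈ fa S i ×ˢ fa S i | p.1 + 1 = p.2 ∨ p.2 + 1 = p.1} =
      ∑ x : Fin 5, ∑ y : Fin 5, if (Sum.inl (i, x) ∈ S ∧ Sum.inl (i, y) ∈ S) ∧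
        (x + 1 = y ∨ y + 1 = x) then 1 else 0 := by
    intro i
    rw [← Finset.sum_product', Finset.univ_product_univ, ← Finset.card_filter]
    congr 1
    ext p
    simp [fa]
  have h3 : ∀ j : Fin c, #{p ∈ fb S j ×ˢ fb S j | p.1 ≠ p.2} =
      ∑ x : Fin 2, ∑ y : Fin 2, if (Sum.inr (j, x) ∈ S ∧ Sum.inr (j, y) ∈ S) ∧
        x ≠ y then 1 else 0 := by
    intro j
    rw [← Finset.sum_product', Finset.univ_product_univ, ← Finset.card_filter]
    congr 1
    ext p
    simp [fb]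
  rw [h1, Finset.sum_congr rfl (fun i _ => h2 i), Finset.sum_congr rfl (fun j _ => h3 j)]
  rw [Fintype.sum_sum_type, Fintype.sum_prod_type, Fintype.sum_prod_type]
  congr 1
  · refine Finset.sum_congr rfl fun i _ => Finset.sum_congr rfl fun x _ => ?_
    rw [Fintype.sum_sum_type, Fintype.sum_prod_type]
    have e1 : ∑ z : Fin c × Fin 2, (if (Sum.inl (i, x) ∈ S ∧ Sum.inr z ∈ S) ∧
        adj a c (Sum.inl (i, x)) (Sum.inr z) then 1 else 0) = 0 := by
      apply Finset.sum_eq_zero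
      intro z _
      rw [if_neg]
      exact fun h => h.2
    rw [e1, add_zero]
    rw [Finset.sum_eq_single i]
    · refine Finset.sum_congr rfl fun y _ => ?_
      simp [adj]
    · intro k _ hk
      apply Finset.sum_eq_zero
      intro y _
      rw [if_neg]
      exact fun h => hk h.2.1.symm
    · intro h
      exact absurd (Finset.mem_univ _) h
  · refine Finset.sum_congr rfl fun i _ => Finset.sum_congr rfl fun x _ => ?_
    rw [Fintype.sum_sum_type, Fintype.sum_prod_type]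
    have e1 : ∑ k : Fin a, ∑ z : Fin 5, (if (Sum.inr (i, x) ∈ S ∧ Sum.inl (k, z) ∈ S) ∧
        adj a c (Sum.inr (i, x)) (Sum.inl (k, z)) then 1 else 0) = 0 := by
      apply Finset.sum_eq_zero
      intro k _
      apply Finset.sum_eq_zero
      intro z _
      rw [if_neg]
      exact fun h => h.2
    rw [e1, zero_add, Fintype.sum_prod_type]
    rw [Finset.sum_eq_single i]
    · refine Finset.sum_congr rfl fun y _ => ?_
      simp [adj]
    · intro k _ hk
      apply Finset.sum_eq_zero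
      intro y _
      rw [if_neg]
      exact fun h => hk h.2.1.symm
    · intro h
      exact absurd (Finset.mem_univ _) h

theorem pairs_le (S : Finset ((Fin a × Fin 5) ⊕ (Fin c × Fin 2))) (h5 : ¬ 5 ∣ S.card) :
    #{p ∈ S ×ˢ S | adj a c p.1 p.2} + 1 ≤ 2 * S.card := by
  rw [pairs_split]
  have hA : ∀ i, #{p ∈ fa S i ×ˢ fa S i | p.1 + 1 = p.2 ∨ p.2 + 1 = p.1} ≤ 2 * (fa S i).card := by
    intro i
    rcases five_pairs (fa S i) with h | h
    · exact h.1.le
    · omega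
  have hB : ∀ j, #{p ∈ fb S j ×ˢ fb S j | p.1 ≠ p.2} ≤ 2 * (fb S j).card := by
    intro j
    rcases two_pairs (fb S j) with h | h
    · exact h.1.le
    · omega
  have hS := card_split S
  by_cases hcA : ∃ i, #{p ∈ fa S i ×ˢ fa S i | p.1 + 1 = p.2 ∨ p.2 + 1 = p.1} < 2 * (fa S i).card
  · obtain ⟨i, hi⟩ := hcA
    have e1 : ∑ i, #{p ∈ fa S i ×ˢ fa S i | p.1 + 1 = p.2 ∨ p.2 + 1 = p.1} <
        ∑ i, 2 * (fa S i).card :=
      Finset.sum_lt_sum (fun i _ => hA i) ⟨i, Finset.mem_univ _, hi⟩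
    have e2 : ∑ j, #{p ∈ fb S j ×ˢ fb S j | p.1 ≠ p.2} ≤ ∑ j, 2 * (fb S j).card :=
      Finset.sum_le_sum (fun j _ => hB j)
    rw [← Finset.mul_sum] at e1 e2
    omega
  by_cases hcB : ∃ j, #{p ∈ fb S j ×ˢ fb S j | p.1 ≠ p.2} < 2 * (fb S j).card
  · obtain ⟨i, hi⟩ := hcB
    have e1 : ∑ i, #{p ∈ fa S i ×ˢ fa S i | p.1 + 1 = p.2 ∨ p.2 + 1 = p.1} ≤
        ∑ i, 2 * (fa S i).card :=
      Finset.sum_le_sum (fun i _ => hA i)
    have e2 : ∑ j, #{p ∈ fb S j ×ˢ fb S j | p.1 ≠ p.2} < ∑ j, 2 * (fb S j).card :=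
      Finset.sum_lt_sum (fun j _ => hB j) ⟨i, Finset.mem_univ _, hi⟩
    rw [← Finset.mul_sum] at e1 e2
    omega
  · exfalso
    push Not at hcA hcB
    apply h5
    rw [hS]
    apply dvd_add
    · apply Finset.dvd_sum
      intro i _
      rcases five_pairs (fa S i) with h | h
      · rcases h.2 with h' | h' <;> rw [h']
        · exact dvd_zero 5
      · have := hcA i
        omega
    · apply Finset.dvd_sum
      intro i _
      rcases two_pairs (fb S i) with h | h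
      · rw [h.2]
        exact dvd_zero 5
      · have := hcB i
        omega

theorem indep_card (S : Finset ((Fin a × Fin 5) ⊕ (Fin c × Fin 2)))
    (hS : ∀ x ∈ S, ∀ y ∈ S, ¬ adj a c x y) : S.card ≤ 2 * a + c := by
  rw [card_split]
  have h1 : ∑ i, (fa S i).card ≤ ∑ _i : Fin a, 2 := by
    refine Finset.sum_le_sum fun i _ => five_indep _ ?_
    intro x hx y hy h
    simp only [fa, Finset.mem_filter, Finset.mem_univ, true_and] at hx hy
    exact hS _ hx _ hy ⟨rfl, h⟩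
  have h2 : ∑ j, (fb S j).card ≤ ∑ _j : Fin c, 1 := by
    refine Finset.sum_le_sum fun i _ => two_indep _ ?_
    intro x hx y hy h
    simp only [fb, Finset.mem_filter, Finset.mem_univ, true_and] at hx hy
    exact hS _ hx _ hy ⟨rfl, h⟩
  simp only [Finset.sum_const, Finset.card_univ, Fintype.card_fin, smul_eq_mul] at h1 h2
  omega

end count

/-- the complement of `a` disjoint five-cycles and `c` disjoint edges, on `Fin n` -/
def Gr {a c n : ℕ} (e : Fin n ≃ (Fin a × Fin 5) ⊕ (Fin c × Fin 2)) : SimpleGraph (Fin n) where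
  Adj u v := u ≠ v ∧ ¬ adj a c (e u) (e v)
  symm := ⟨fun _ _ h => ⟨h.1.symm, fun h' => h.2 (adj_symm _ _ _ _ h')⟩⟩
  loopless := ⟨fun _ h => h.1 rfl⟩

theorem Gr_cliqueFree {a c n : ℕ} (e : Fin n ≃ (Fin a × Fin 5) ⊕ (Fin c × Fin 2)) :
    (Gr e).CliqueFree (2 * a + c + 1) := by
  intro s hs
  have h1 : (s.map e.toEmbedding).card ≤ 2 * a + c := by
    apply indep_card
    intro x hx y hy h
    rw [Finset.mem_map] at hx hy
    obtain ⟨u, hu, rfl⟩ := hx
    obtain ⟨v, hv, rfl⟩ := hy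
    by_cases huv : u = v
    · subst huv
      exact adj_irrefl _ _ _ h
    · exact (hs.isClique hu hv huv).2 h
  rw [Finset.card_map, hs.card_eq] at h1
  omega

open Classical in
theorem Gr_spanned {a c n : ℕ} (e : Fin n ≃ (Fin a × Fin 5) ⊕ (Fin c × Fin 2))
    (S : Finset (Fin n)) (h5 : ¬ 5 ∣ S.card) :
    S.card * S.card + 1 ≤ 2 * spanned (Gr e) S + 3 * S.card := by
  rw [two_mul_spanned]
  have h1 : #S.offDiag ≤ #{p ∈ S ×ˢ S | (Gr e).Adj p.1 p.2} +
      #{p ∈ S ×ˢ S | adj a c (e p.1) (e p.2)} := by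
    refine le_trans (Finset.card_le_card ?_) (Finset.card_union_le _ _)
    intro p hp
    rw [Finset.mem_offDiag] at hp
    rw [Finset.mem_union, Finset.mem_filter, Finset.mem_filter, Finset.mem_product]
    by_cases h : adj a c (e p.1) (e p.2)
    · exact Or.inr ⟨⟨hp.1, hp.2.1⟩, h⟩
    · exact Or.inl ⟨⟨hp.1, hp.2.1⟩, hp.2.2, h⟩
  rw [Finset.offDiag_card] at h1
  have h2 : #{p ∈ S ×ˢ S | adj a c (e p.1) (e p.2)} ≤
      #{p ∈ (S.map e.toEmbedding) ×ˢ (S.map e.toEmbedding) | adj a c p.1 p.2} := by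
    apply Finset.card_le_card_of_injOn (fun p => (e p.1, e p.2))
    · intro p hp
      have hp' := Finset.mem_filter.1 (Finset.mem_coe.1 hp)
      rw [Finset.mem_product] at hp'
      apply Finset.mem_coe.2
      rw [Finset.mem_filter, Finset.mem_product]
      exact ⟨⟨Finset.mem_map_of_mem _ hp'.1.1, Finset.mem_map_of_mem _ hp'.1.2⟩, hp'.2⟩
    · intro p _ q _ hpq
      have h3 := Prod.mk.inj hpq
      exact Prod.ext (e.injective h3.1) (e.injective h3.2)
  have h3 := pairs_le (a := a) (c := c) (S.map e.toEmbedding) (by rwa [Finset.card_map])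
  rw [Finset.card_map] at h3
  have h4 : #{p ∈ (S.map e.toEmbedding) ×ˢ (S.map e.toEmbedding) | adj a c p.1 p.2} + 1 ≤
      2 * S.card := by convert h3
  have h6 : S.card ≤ S.card * S.card := Nat.le_mul_self _
  omega

open Classical in
theorem turan_upper {r n q : ℕ} (hq : 0 < q) (hqr : q ≤ r) (hn : 2 * r + q ≤ n) (hh : n / 2 = 3 * q) :
    2 * b (r + 1) n + 9 * q ≤ (3 * q) * (3 * q) := by
  have hr : 0 < r := by omega
  let φ : Fin q × Fin 3 → Fin n := fun w => ⟨w.1.val + w.2.val * r, by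
    have h1 := w.1.isLt
    have h2 : w.2.val ≤ 2 := by have := w.2.isLt; omega
    have h3 : w.2.val * r ≤ 2 * r := Nat.mul_le_mul_right _ h2
    omega⟩
  have hmod : ∀ w, (φ w : ℕ) % r = w.1.val := by
    intro w
    show (w.1.val + w.2.val * r) % r = w.1.val
    rw [Nat.add_mul_mod_self_right]
    exact Nat.mod_eq_of_lt (lt_of_lt_of_le w.1.isLt hqr)
  have hinj : Function.Injective φ := by
    intro w w' h
    have h1 : w.1.val = w'.1.val := by rw [← hmod w, ← hmod w', h]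
    have h2 : w.1.val + w.2.val * r = w'.1.val + w'.2.val * r := congrArg Fin.val h
    have h3 : w.2.val * r = w'.2.val * r := by omega
    have h4 : w.2.val = w'.2.val := Nat.eq_of_mul_eq_mul_right hr h3
    exact Prod.ext (Fin.ext h1) (Fin.ext h4)
  set S : Finset (Fin n) := Finset.univ.image φ with hS
  have hcard : S.card = 3 * q := by
    rw [hS, Finset.card_image_of_injective _ hinj, Finset.card_univ, Fintype.card_prod,
      Fintype.card_fin, Fintype.card_fin]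
    ring
  have hb : b (r + 1) n ≤ spanned (SimpleGraph.turanGraph n (r + 1 - 1)) S :=
    Nat.sInf_le ⟨S, by rw [hcard, hh], rfl⟩
  rw [Nat.add_sub_cancel] at hb
  have h2 := two_mul_spanned (SimpleGraph.turanGraph n r) S
  have h3 : #{p ∈ S ×ˢ S | (SimpleGraph.turanGraph n r).Adj p.1 p.2} ≤
      #{w : (Fin q × Fin 3) × (Fin q × Fin 3) | ¬ w.1.1 = w.2.1} := by
    have hsub : {p ∈ S ×ˢ S | (SimpleGraph.turanGraph n r).Adj p.1 p.2} ⊆
        ({w : (Fin q × Fin 3) × (Fin q × Fin 3) | ¬ w.1.1 = w.2.1} : Finset _).image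
          (fun w => (φ w.1, φ w.2)) := by
      intro p hp
      rw [Finset.mem_filter, Finset.mem_product, hS, Finset.mem_image, Finset.mem_image] at hp
      obtain ⟨⟨⟨w, -, hw⟩, ⟨w', -, hw'⟩⟩, hadj⟩ := hp
      rw [Finset.mem_image]
      refine ⟨(w, w'), ?_, ?_⟩
      · rw [Finset.mem_filter]
        refine ⟨Finset.mem_univ _, ?_⟩
        intro h
        rw [SimpleGraph.turanGraph_adj] at hadj
        apply hadj
        rw [← hw, ← hw', hmod, hmod]
        exact congrArg Fin.val h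
      · exact Prod.ext hw hw'
    exact (Finset.card_le_card hsub).trans Finset.card_image_le
  have h4 : #{w : (Fin q × Fin 3) × (Fin q × Fin 3) | w.1.1 = w.2.1} +
      #{w : (Fin q × Fin 3) × (Fin q × Fin 3) | ¬ w.1.1 = w.2.1} = (3 * q) * (3 * q) := by
    rw [Finset.card_filter_add_card_filter_not, Finset.card_univ, Fintype.card_prod,
      Fintype.card_prod, Fintype.card_fin, Fintype.card_fin]
    ring
  have h5 : 9 * q ≤ #{w : (Fin q × Fin 3) × (Fin q × Fin 3) | w.1.1 = w.2.1} := by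
    have h6 : (Finset.univ : Finset (Fin q × (Fin 3 × Fin 3))).card = 9 * q := by
      rw [Finset.card_univ, Fintype.card_prod, Fintype.card_prod, Fintype.card_fin,
        Fintype.card_fin]
      ring
    rw [← h6]
    apply Finset.card_le_card_of_injOn (fun z => ((z.1, z.2.1), (z.1, z.2.2)))
    · intro z _
      apply Finset.mem_coe.2
      rw [Finset.mem_filter]
      exact ⟨Finset.mem_univ _, rfl⟩
    · rintro ⟨x, y, z⟩ _ ⟨x', y', z'⟩ _ h
      simp only [Prod.mk.injEq] at h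
      obtain ⟨⟨h1, h2⟩, h3, h4⟩ := h
      subst h1 h2 h4
      rfl
  omega

theorem counter {a c q : ℕ} (hq : 0 < q) (hqa : q ≤ a) (h5 : ¬ 5 ∣ q)
    (hh : (5 * a + 2 * c) / 2 = 3 * q) :
    ∃ G : SimpleGraph (Fin (5 * a + 2 * c)), G.CliqueFree (2 * a + c + 1) ∧
      ∀ S : Finset (Fin (5 * a + 2 * c)), S.card = (5 * a + 2 * c) / 2 →
        b (2 * a + c + 1) (5 * a + 2 * c) < spanned G S := by
  have hcard : Fintype.card (Fin (5 * a + 2 * c)) =
      Fintype.card ((Fin a × Fin 5) ⊕ (Fin c × Fin 2)) := by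
    simp only [Fintype.card_fin, Fintype.card_sum, Fintype.card_prod]
    ring
  let e := Fintype.equivOfCardEq hcard
  refine ⟨Gr e, Gr_cliqueFree e, fun S hS => ?_⟩
  have h1 := turan_upper (r := 2 * a + c) (n := 5 * a + 2 * c) hq (by omega) (by omega) hh
  rw [hh] at hS
  have h2 := Gr_spanned e S (by rw [hS]; omega)
  rw [hS] at h2
  omega

/-- The complement of the seven-cycle. -/
def G7 : SimpleGraph (Fin 7) where
  Adj u v := u ≠ v ∧ ¬ (u + 1 = v ∨ v + 1 = u)
  symm := ⟨fun _ _ h => ⟨h.1.symm, fun h' => h.2 h'.symm⟩⟩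
  loopless := ⟨fun _ h => h.1 rfl⟩

theorem seven_a : ∀ s : Finset (Fin 7), s.card = 4 →
    ∃ x ∈ s, ∃ y ∈ s, x ≠ y ∧ (x + 1 = y ∨ y + 1 = x) := by decide +kernel

theorem seven_b : ∀ s : Finset (Fin 7), s.card = 3 →
    ∃ x ∈ s, ∃ y ∈ s, x ≠ y ∧ ¬ (x + 1 = y ∨ y + 1 = x) := by decide +kernel

theorem counter7 : ∃ G : SimpleGraph (Fin 7), G.CliqueFree 4 ∧
    ∀ S : Finset (Fin 7), S.card = 7 / 2 → b 4 7 < spanned G S := by
  refine ⟨G7, ?_, ?_⟩
  · intro s hs
    obtain ⟨x, hx, y, hy, hxy, h⟩ := seven_a s hs.card_eq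
    exact (hs.isClique hx hy hxy).2 h
  · intro S hS
    have h0 : b 4 7 = 0 := by
      refine Nat.sInf_eq_zero.2 (Or.inl ⟨{0, 3, 6}, by decide, ?_⟩)
      have h1 := two_mul_spanned (SimpleGraph.turanGraph 7 (4 - 1)) {0, 3, 6}
      rw [Finset.filter_false_of_mem, Finset.card_empty] at h1
      · omega
      · intro p hp
        rw [SimpleGraph.turanGraph_adj]
        revert hp
        revert p
        decide
    rw [h0]
    obtain ⟨x, hx, y, hy, hxy, h⟩ := seven_b S hS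
    unfold spanned
    rw [Set.ncard_pos]
    refine ⟨s(x, y), ?_, ?_⟩
    · exact ⟨hxy, h⟩
    · intro v hv
      rw [Sym2.mem_iff] at hv
      rcases hv with rfl | rfl
      · exact hx
      · exact hy

/-- For `t = 4`, and for every `t ≥ 121`, there are `n ≥ t` and a `K_t`-free graph on `n`
vertices in which every set of `⌊n/2⌋` vertices spans more than `b_t(n)` edges. -/
theorem result : ∀ t : ℕ, (t = 4 ∨ 121 ≤ t) → ∃ n : ℕ, t ≤ n ∧ ∃ G : SimpleGraph (Fin n),
    G.CliqueFree t ∧ ∀ S : Finset (Fin n), S.card = n / 2 → b t n < spanned G S := by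
  rintro t (rfl | ht)
  · exact ⟨7, by norm_num, counter7⟩
  · -- choose `s` with `(t-1)/5 ≤ s ≤ (t-1)/4`, `3 ∣ t - 1 + s`, `¬ 5 ∣ t - 1 + s`
    obtain ⟨s, q, hs1, hs2, hq, h5⟩ : ∃ s q : ℕ, t - 1 ≤ 5 * s ∧ 4 * s ≤ t - 1 ∧
        t - 1 + s = 3 * q ∧ ¬ 5 ∣ q := by
      set r := t - 1 with hr
      set s0 := (r + 4) / 5 with hs0
      have h1 : r ≤ 5 * s0 := by omega
      have h2 : 4 * (s0 + 5) ≤ r := by omega
      obtain ⟨d, hd, hd3⟩ : ∃ d, d ≤ 2 ∧ 3 ∣ r + s0 + d := by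
        refine ⟨(3 - (r + s0) % 3) % 3, by omega, by omega⟩
      obtain ⟨q, hq⟩ := hd3
      by_cases h5 : 5 ∣ q
      · refine ⟨s0 + d + 3, q + 1, by omega, by omega, by omega, by omega⟩
      · exact ⟨s0 + d, q, by omega, by omega, by omega, h5⟩
    have h := counter (a := 2 * s) (c := t - 1 - 4 * s) (q := q) (by omega) (by omega) h5 (by omega)
    have e : 2 * (2 * s) + (t - 1 - 4 * s) + 1 = t := by omega
    rw [e] at h
    exact ⟨5 * (2 * s) + 2 * (t - 1 - 4 * s), by omega, h⟩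

end Pool.Agent.Results.MP_c86f36_co.SparseHalves
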